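import Pool.Agent.MP_d5eec5_gt.H77.KBasic

/-! Colourings are invariant under flat equivalence. -/

set_option autoImplicit false

namespace Pool.Agent.MP_d5eec5_gt.H77

open Pool.Agent.MP_d5eec5_gt.H48 Kind

namespace Col1

variable {A : Type} {γ γ' : Bool → Equiv.Perm A} {P P' : Bool → Set A}

/-- The action of a piece on the strands to its right. -/
def gk (γ : Bool → Equiv.Perm A) : Kind → Equiv.Perm A
  | up e => γ e
  | dn e => γ e
  | _ => 1

/-- The local rule. -/
def CL (P : Bool → Set A) : Kind → List A → List A → Prop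
  | cup, x, y => x = [] ∧ ∃ a, y = [a, a]
  | cap, x, y => y = [] ∧ ∃ a, x = [a, a]
  | cr _, x, y => ∃ a b, x = [a, b] ∧ y = [b, a]
  | up e, x, y => x = [] ∧ ∃ a ∈ P e, y = [a]
  | dn e, x, y => y = [] ∧ ∃ a ∈ P e, x = [a]

theorem CL.len {k : Kind} {x y : List A} (h : CL P k x y) :
    x.length = win k ∧ y.length = wout k := by
  cases k <;> simp only [CL] at h
  · obtain ⟨rfl, a, rfl⟩ := h; exact ⟨rfl, rfl⟩
  · obtain ⟨rfl, a, rfl⟩ := h; exact ⟨rfl, rfl⟩
  · obtain ⟨a, b, rfl, rfl⟩ := h; exact ⟨rfl, rfl⟩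
  · obtain ⟨rfl, a, -, rfl⟩ := h; exact ⟨rfl, rfl⟩
  · obtain ⟨rfl, a, -, rfl⟩ := h; exact ⟨rfl, rfl⟩

/-- One piece. -/
def St (γ : Bool → Equiv.Perm A) (P : Bool → Set A) (g : Gen) (l m : List A) : Prop :=
  ∃ c x y r, c.length = g.1 ∧ CL P g.2 x y ∧ l = c ++ (x ++ r) ∧ m = c ++ (y ++ r.map (gk γ g.2))

theorem nil_iff {l m : List A} : Col γ P l [] m ↔ l = m :=
  ⟨fun h => by cases h; rfl, fun h => h ▸ Col.nil l⟩

theorem cons_iff {l l' : List A} {g : Gen} {w : List Gen} :
    Col γ P l (g :: w) l' ↔ ∃ m, St γ P g l m ∧ Col γ P m w l' := by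
  constructor
  · intro h
    cases h with
    | cup x h => exact ⟨_, ⟨_, [], [x, x], _, rfl, ⟨rfl, x, rfl⟩, rfl, by simp [gk]⟩, h⟩
    | cap x h => exact ⟨_, ⟨_, [x, x], [], _, rfl, ⟨rfl, x, rfl⟩, rfl, by simp [gk]⟩, h⟩
    | cr x y b h => exact ⟨_, ⟨_, [x, y], [y, x], _, rfl, ⟨x, y, rfl, rfl⟩, rfl, by simp [gk]⟩, h⟩
    | up x e hx h => exact ⟨_, ⟨_, [], [x], _, rfl, ⟨rfl, x, hx, rfl⟩, rfl, rfl⟩, h⟩
    | dn x e hx h => exact ⟨_, ⟨_, [x], [], _, rfl, ⟨rfl, x, hx, rfl⟩, rfl, rfl⟩, h⟩
  · obtain ⟨p, k⟩ := g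
    rintro ⟨_, ⟨c, x, y, r, rfl, hc, rfl, rfl⟩, h⟩
    cases k <;> simp only [CL] at hc
    · obtain ⟨rfl, a, rfl⟩ := hc; exact Col.cup a (by simpa [gk] using h)
    · obtain ⟨rfl, a, rfl⟩ := hc; exact Col.cap a (by simpa [gk] using h)
    · obtain ⟨a, b, rfl, rfl⟩ := hc; exact Col.cr a b _ (by simpa [gk] using h)
    · obtain ⟨rfl, a, ha, rfl⟩ := hc; exact Col.up a _ ha h
    · obtain ⟨rfl, a, ha, rfl⟩ := hc; exact Col.dn a _ ha h

theorem append_iff {u v : List Gen} {l l' : List A} :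
    Col γ P l (u ++ v) l' ↔ ∃ m, Col γ P l u m ∧ Col γ P m v l' := by
  induction u generalizing l with
  | nil => simp [nil_iff]
  | cons g u ih =>
    simp only [List.cons_append, cons_iff, ih]
    exact ⟨fun ⟨m, a, m', b, c⟩ => ⟨m', ⟨m, a, b⟩, c⟩, fun ⟨m', ⟨m, a, b⟩, c⟩ => ⟨m, a, m', b, c⟩⟩

theorem len {w : List Gen} {l l' : List A} (h : Col γ P l w l') : l'.length = cnt l.length w := by
  induction w generalizing l with
  | nil => rw [nil_iff.1 h]; rfl
  | cons g w ih =>
    obtain ⟨_, ⟨c, x, y, r, -, hc, rfl, rfl⟩, h⟩ := cons_iff.1 h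
    rw [ih h, cnt_cons]
    congr 1
    simp only [List.length_append, List.length_map, hc.len.1, hc.len.2]
    omega

theorem St_shift {c t m : List A} {j : ℕ} {k : Kind} :
    St γ P (c.length + j, k) (c ++ t) m ↔ ∃ m', m = c ++ m' ∧ St γ P (j, k) t m' := by
  constructor
  · rintro ⟨c', x, y, r, h1, h2, h3, rfl⟩
    obtain ⟨d, rfl, rfl⟩ : ∃ d, c' = c ++ d ∧ t = d ++ (x ++ r) := by
      rcases List.append_eq_append_iff.1 h3 with h | ⟨d, rfl, h⟩
      · exact h
      · have : d = [] := by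
          simp only [List.length_append] at h1
          exact List.length_eq_zero_iff.1 (by omega)
        subst this
        exact ⟨[], by simp, by simpa using h.symm⟩
    exact ⟨_, List.append_assoc _ _ _, d, x, y, r, by simpa using h1, h2, rfl, rfl⟩
  · rintro ⟨_, rfl, d, x, y, r, h1, h2, rfl, rfl⟩
    exact ⟨c ++ d, x, y, r, by simp [h1], h2, by simp, by simp⟩

theorem St_zero {l m : List A} {k : Kind} :
    St γ P (0, k) l m ↔ ∃ x y r, CL P k x y ∧ l = x ++ r ∧ m = y ++ r.map (gk γ k) := by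
  constructor
  · rintro ⟨c, x, y, r, h1, h2, rfl, rfl⟩
    rw [List.length_eq_zero_iff.1 h1]
    exact ⟨x, y, r, h2, rfl, rfl⟩
  · rintro ⟨x, y, r, h2, rfl, rfl⟩
    exact ⟨[], x, y, r, rfl, h2, rfl, rfl⟩

theorem St_one {a : A} {t m : List A} {k : Kind} :
    St γ P (1, k) (a :: t) m ↔ ∃ m', m = a :: m' ∧ St γ P (0, k) t m' :=
  St_shift (c := [a]) (j := 0)

theorem St_cup {l m : List A} : St γ P (0, cup) l m ↔ ∃ a, m = a :: a :: l := by
  rw [St_zero]
  constructor
  · rintro ⟨_, _, r, ⟨rfl, a, rfl⟩, rfl, rfl⟩; exact ⟨a, by simp [gk]⟩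
  · rintro ⟨a, rfl⟩; exact ⟨[], [a, a], l, ⟨rfl, a, rfl⟩, rfl, by simp [gk]⟩

theorem St_cap {a b : A} {l m : List A} : St γ P (0, cap) (a :: b :: l) m ↔ a = b ∧ m = l := by
  rw [St_zero]
  constructor
  · rintro ⟨_, _, r, ⟨rfl, a, rfl⟩, h, rfl⟩
    simp only [List.cons_append, List.nil_append, List.cons.injEq] at h
    simp [gk, h.1, h.2.1, h.2.2]
  · rintro ⟨rfl, rfl⟩; exact ⟨[a, a], [], m, ⟨rfl, a, rfl⟩, rfl, by simp [gk]⟩

theorem St_cr {a b : A} {l m : List A} {s : Bool} :
    St γ P (0, cr s) (a :: b :: l) m ↔ m = b :: a :: l := by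
  rw [St_zero]
  constructor
  · rintro ⟨_, _, r, ⟨a, b, rfl, rfl⟩, h, rfl⟩
    simp only [List.cons_append, List.nil_append, List.cons.injEq] at h
    simp [gk, h.1, h.2.1, h.2.2]
  · rintro rfl; exact ⟨[a, b], [b, a], l, ⟨a, b, rfl, rfl⟩, rfl, by simp [gk]⟩

theorem St_up {l m : List A} {e : Bool} :
    St γ P (0, up e) l m ↔ ∃ a, a ∈ P e ∧ m = a :: l.map (γ e) := by
  rw [St_zero]
  constructor
  · rintro ⟨_, _, r, ⟨rfl, a, ha, rfl⟩, rfl, rfl⟩; exact ⟨a, ha, rfl⟩
  · rintro ⟨a, ha, rfl⟩; exact ⟨[], [a], l, ⟨rfl, a, ha, rfl⟩, rfl, rfl⟩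

theorem St_dn {a : A} {l m : List A} {e : Bool} :
    St γ P (0, dn e) (a :: l) m ↔ a ∈ P e ∧ m = l.map (γ e) := by
  rw [St_zero]
  constructor
  · rintro ⟨_, _, r, ⟨rfl, a, ha, rfl⟩, h, rfl⟩
    simp only [List.cons_append, List.nil_append, List.cons.injEq] at h
    obtain ⟨rfl, rfl⟩ := h
    exact ⟨ha, rfl⟩
  · rintro ⟨ha, rfl⟩; exact ⟨[a], [], l, ⟨rfl, a, ha, rfl⟩, rfl, rfl⟩

/-- Shift of the positions. -/
def sh (p : ℕ) (w : List Gen) : List Gen := w.map fun g => (p + g.1, g.2)

theorem col_shift {c t m : List A} {w : List Gen} :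
    Col γ P (c ++ t) (sh c.length w) m ↔ ∃ m', m = c ++ m' ∧ Col γ P t w m' := by
  induction w generalizing t with
  | nil => simp [sh, nil_iff, eq_comm]
  | cons g w ih =>
    rw [sh, List.map_cons, cons_iff]
    constructor
    · rintro ⟨_, h1, h2⟩
      obtain ⟨t', rfl, h3⟩ := St_shift.1 h1
      obtain ⟨m', rfl, h4⟩ := ih.1 h2
      exact ⟨m', rfl, cons_iff.2 ⟨t', h3, h4⟩⟩
    · rintro ⟨m', rfl, h⟩
      obtain ⟨t', h1, h2⟩ := cons_iff.1 h
      exact ⟨_, St_shift.2 ⟨t', rfl, h1⟩, ih.2 ⟨m', rfl, h2⟩⟩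

theorem split (a : List A) {p : ℕ} (h : p ≤ a.length) : ∃ c t, c.length = p ∧ a = c ++ t :=
  ⟨a.take p, a.drop p, by simp [h], by simp⟩

theorem loc (p n : ℕ) (l r : List Gen)
    (H : ∀ t m : List A, n ≤ t.length → (Col γ P t l m ↔ Col γ P t r m)) {a b : List A}
    (h : p + n ≤ a.length) : Col γ P a (sh p l) b ↔ Col γ P a (sh p r) b := by
  obtain ⟨c, t, rfl, rfl⟩ := split a (p := p) (by omega)
  rw [List.length_append] at h
  simp only [col_shift, H t _ (by omega)]

theorem loc0 (p : ℕ) (l r : List Gen)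
    (H : ∀ t m : List A, Col γ P t l m ↔ Col γ P t r m) {a b : List A}
    (h : p ≤ a.length) : Col γ P a (sh p l) b ↔ Col γ P a (sh p r) b :=
  loc p 0 l r (fun t m _ => H t m) h

theorem loc1 (p : ℕ) (l r : List Gen)
    (H : ∀ x (t m : List A), Col γ P (x :: t) l m ↔ Col γ P (x :: t) r m) {a b : List A}
    (h : p + 1 ≤ a.length) : Col γ P a (sh p l) b ↔ Col γ P a (sh p r) b :=
  loc p 1 l r (fun t m ht => by
    rcases t with _ | ⟨x, t⟩
    · simp at ht
    · exact H _ _ _) h

theorem loc2 (p : ℕ) (l r : List Gen)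
    (H : ∀ x y (t m : List A), Col γ P (x :: y :: t) l m ↔ Col γ P (x :: y :: t) r m)
    {a b : List A} (h : p + 2 ≤ a.length) : Col γ P a (sh p l) b ↔ Col γ P a (sh p r) b :=
  loc p 2 l r (fun t m ht => by
    rcases t with _ | ⟨x, _ | ⟨y, t⟩⟩
    · simp at ht
    · simp at ht
    · exact H _ _ _ _) h

theorem loc3 (p : ℕ) (l r : List Gen)
    (H : ∀ x y z (t m : List A),
      Col γ P (x :: y :: z :: t) l m ↔ Col γ P (x :: y :: z :: t) r m)
    {a b : List A} (h : p + 3 ≤ a.length) : Col γ P a (sh p l) b ↔ Col γ P a (sh p r) b :=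
  loc p 3 l r (fun t m ht => by
    rcases t with _ | ⟨x, _ | ⟨y, _ | ⟨z, t⟩⟩⟩
    · simp at ht
    · simp at ht
    · simp at ht
    · exact H _ _ _ _ _) h

/-- Conjugate actions. -/
def cj (g : Equiv.Perm A) (γ : Bool → Equiv.Perm A) : Bool → Equiv.Perm A :=
  fun e => g * γ e * g⁻¹

/-- Translated colour sets. -/
def tr (g : Equiv.Perm A) (P : Bool → Set A) : Bool → Set A := fun e => {x | g⁻¹ x ∈ P e}

theorem cj_cj (g : Equiv.Perm A) : cj g⁻¹ (cj g γ) = γ := by
  funext e; simp [cj, mul_assoc]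

theorem tr_tr (g : Equiv.Perm A) : tr g⁻¹ (tr g P) = P := by
  funext e; simp [tr]

theorem St.map (g : Equiv.Perm A) {z : Gen} {l m : List A} (h : St γ P z l m) :
    St (cj g γ) (tr g P) z (l.map g) (m.map g) := by
  obtain ⟨p, k⟩ := z
  obtain ⟨c, x, y, r, h1, h2, rfl, rfl⟩ := h
  refine ⟨c.map g, x.map g, y.map g, r.map g, by simpa using h1, ?_, by simp, ?_⟩
  · cases k <;> simp only [CL] at h2 ⊢
    · obtain ⟨rfl, a, rfl⟩ := h2; exact ⟨rfl, _, rfl⟩
    · obtain ⟨rfl, a, rfl⟩ := h2; exact ⟨rfl, _, rfl⟩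
    · obtain ⟨a, b, rfl, rfl⟩ := h2; exact ⟨_, _, rfl, rfl⟩
    · obtain ⟨rfl, a, ha, rfl⟩ := h2; exact ⟨rfl, _, by simpa [tr] using ha, rfl⟩
    · obtain ⟨rfl, a, ha, rfl⟩ := h2; exact ⟨rfl, _, by simpa [tr] using ha, rfl⟩
  · cases k <;> simp [gk, cj, Function.comp_def]

theorem col_map (g : Equiv.Perm A) {w : List Gen} {l m : List A} (h : Col γ P l w m) :
    Col (cj g γ) (tr g P) (l.map g) w (m.map g) := by
  induction w generalizing l with
  | nil => rw [nil_iff.1 h]; exact Col.nil _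
  | cons z w ih =>
    obtain ⟨t, h1, h2⟩ := cons_iff.1 h
    exact cons_iff.2 ⟨_, h1.map g, ih h2⟩

theorem closed_iff (g : Equiv.Perm A) {w : List Gen} :
    Col (cj g γ) (tr g P) [] w [] ↔ Col γ P [] w [] :=
  ⟨fun h => by simpa [cj_cj, tr_tr] using col_map g⁻¹ h, fun h => col_map g h⟩

theorem St_congr {z : Gen} (h : ∀ e, IsEnd e z = true → γ e = γ' e ∧ P e = P' e) :
    St γ P z = St γ' P' z := by
  obtain ⟨p, k⟩ := z
  have h1 : gk γ k = gk γ' k := by
    cases k with
    | up e => exact (h e (by simp [IsEnd])).1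
    | dn e => exact (h e (by simp [IsEnd])).1
    | _ => rfl
  have h2 : CL P k = CL P' k := by
    funext x y
    cases k with
    | up e => simp only [CL, (h e (by simp [IsEnd])).2]
    | dn e => simp only [CL, (h e (by simp [IsEnd])).2]
    | _ => rfl
  funext l m
  simp only [St, h1, h2]

theorem col_noEnd {w : List Gen} (h : NoEnd w) {l m : List A} :
    Col γ P l w m ↔ Col γ' P' l w m := by
  induction w generalizing l with
  | nil => simp only [nil_iff]
  | cons z w ih =>
    simp only [cons_iff, ih fun g hg => h g (List.mem_cons_of_mem _ hg)]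
    rw [St_congr (γ' := γ') (P' := P') fun e he => by simp [h z List.mem_cons_self e] at he]

theorem far_iff {p q : ℕ} {k l : Kind} (h : p + win k ≤ q) {a b : List A} :
    (∃ m, St γ P (q, l) a m ∧ St γ' P' (p, k) m b) ↔ ∃ m, St γ' P' (p, k) a m ∧
      St (cj (gk γ' k) γ) (tr (gk γ' k) P) (q - win k + wout k, l) m b := by
  obtain ⟨j, rfl⟩ := Nat.exists_eq_add_of_le h
  constructor
  · rintro ⟨_, h1, c, x, y, r, h2, h3, rfl, rfl⟩
    obtain ⟨c', x', y', r', g1, g2, rfl, g3⟩ := h1
    have e : p + win k = (c ++ x).length := by simp [h3.len.1, h2]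
    obtain ⟨c₁, d, g4, rfl⟩ := split c' (p := p + win k) (by rw [g1]; exact h)
    rw [← List.append_assoc, List.append_assoc c₁] at g3
    obtain ⟨rfl, rfl⟩ := List.append_inj g3 (by rw [g4, e])
    refine ⟨_, ⟨c, x, y, d ++ (x' ++ r'), h2, h3, by simp, rfl⟩, ?_⟩
    have e' : p + win k + j - win k + wout k = (c ++ y).length + j := by
      simp only [List.length_append, h3.len.2, h2]; omega
    rw [e', ← List.append_assoc, ← List.append_assoc c]
    refine St_shift.2 ⟨_, rfl, St.map _ ⟨d, x', y', r', ?_, g2, rfl, rfl⟩⟩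
    simp only [List.length_append] at g1 e ⊢
    omega
  · rintro ⟨_, ⟨c, x, y, r, h2, h3, rfl, rfl⟩, h1⟩
    have e : p + win k = (c ++ x).length := by simp [h3.len.1, h2]
    have e' : p + win k + j - win k + wout k = (c ++ y).length + j := by
      simp only [List.length_append, h3.len.2, h2]; omega
    rw [e', ← List.append_assoc] at h1
    obtain ⟨b', rfl, h5⟩ := St_shift.1 h1
    have h4 := h5.map (gk γ' k)⁻¹
    rw [cj_cj, tr_tr] at h4
    refine ⟨c ++ x ++ b'.map ⇑(gk γ' k)⁻¹, ?_, c, x, y, _, h2, h3, List.append_assoc _ _ _,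
      by simp⟩
    rw [e, ← List.append_assoc]
    exact St_shift.2 ⟨_, rfl, by simpa using h4⟩

theorem two_iff {z z' : Gen} {a b : List A} :
    Col γ P a [z, z'] b ↔ ∃ m, St γ P z a m ∧ St γ P z' m b := by
  simp only [cons_iff, nil_iff, exists_eq_right]

theorem not_end {z : Gen} (h : ¬ ∃ e, IsEnd e z = true) : gk γ z.2 = 1 := by
  obtain ⟨p, k⟩ := z
  cases k with
  | up e => exact absurd ⟨e, by simp [IsEnd]⟩ h
  | dn e => exact absurd ⟨e, by simp [IsEnd]⟩ h
  | _ => rfl

theorem of_end {z : Gen} {e : Bool} (h : IsEnd e z = true) :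
    gk γ z.2 = γ e ∧ ∀ e', IsEnd e' z = true → e' = e := by
  obtain ⟨p, k⟩ := z
  cases k <;> simp_all [IsEnd, gk]

theorem step (hA : Adm γ P) {w w' : List Gen} (h : FS 0 w w')
    (h0 : w.countP (IsEnd false) = 1) (h1 : w.countP (IsEnd true) = 1) :
    Col γ P [] w [] ↔ Col γ P [] w' [] := by
  obtain ⟨u, l, r, v, hm, hl, hr, rfl, rfl⟩ := h
  have key : (∀ a b : List A, Ok a.length l → Ok a.length r → (Col γ P a l b ↔ Col γ P a r b)) →
      (Col γ P [] (u ++ l ++ v) [] ↔ Col γ P [] (u ++ r ++ v) []) := by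
    intro H
    simp only [append_iff]
    refine exists_congr fun b => and_congr_left fun _ => exists_congr fun a =>
      and_congr_right fun ha => H a b ?_ ?_
    · rw [len ha]; exact hl
    · rw [len ha]; exact hr
  cases hm with
  | sw p s s' =>
    exact key fun a b h _ => loc2 p [(0, cr s)] [(0, cr s')]
      (fun x y t m => by simp [cons_iff, St_cr]) h.1
  | mv hm =>
    cases hm with
    | far p q k l h =>
      by_cases hk : ∃ e, IsEnd e (p, k) = true
      · by_cases hl' : ∃ e, IsEnd e (q, l) = true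
        · obtain ⟨e, he⟩ := hk
          obtain ⟨e', he'⟩ := hl'
          have hc : ∀ e, (u ++ [(q, l), (p, k)] ++ v).countP (IsEnd e) = 1 := by
            intro e; cases e <;> assumption
          have hne : e ≠ e' := by
            rintro rfl
            have := hc e
            simp only [List.countP_append, List.countP_cons, he, he', if_true] at this
            omega
          have hz : ∀ e, u.countP (IsEnd e) = 0 ∧ v.countP (IsEnd e) = 0 := by
            intro f
            have := hc f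
            have hf : f = e ∨ f = e' := by cases e <;> cases e' <;> cases f <;> simp_all
            rcases hf with rfl | rfl
            · simp only [List.countP_append, List.countP_cons, he, if_true] at this
              omega
            · simp only [List.countP_append, List.countP_cons, he', if_true] at this
              omega
          have hu : NoEnd u := (noEnd_iff u).2 ⟨(hz _).1, (hz _).1⟩
          have hv : NoEnd v := (noEnd_iff v).2 ⟨(hz _).2, (hz _).2⟩
          have hg : gk γ k = γ e := (of_end he).1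
          have hS : St (cj (gk γ k) γ) (tr (gk γ k) P) (p, k) = St γ P (p, k) :=
            St_congr fun f hf => by
              rw [(of_end (γ := γ) he).2 f hf, hg]
              refine ⟨by simp [cj], Set.ext fun x => ?_⟩
              simpa [tr] using hA e ((γ e)⁻¹ x)
          rw [← closed_iff (gk γ k) (w := u ++ [(p, k), _] ++ v)]
          simp only [append_iff, two_iff, hS, far_iff h,
            col_noEnd (γ := cj (gk γ k) γ) (P := tr (gk γ k) P) (γ' := γ) (P' := P) hu,
            col_noEnd (γ := cj (gk γ k) γ) (P := tr (gk γ k) P) (γ' := γ) (P' := P) hv]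
        · refine key fun a b _ _ => ?_
          rw [two_iff, two_iff, far_iff h,
            St_congr (z := (q - win k + wout k, l)) (γ' := γ) (P' := P) fun e he =>
              absurd ⟨e, he⟩ hl']
      · refine key fun a b _ _ => ?_
        rw [two_iff, two_iff, far_iff h, show gk γ k = 1 from not_end hk,
          show cj 1 γ = γ from funext fun e => by simp [cj],
          show tr 1 P = P from funext fun e => by simp [tr]]
    | zig p =>
      exact key fun a b h _ => loc1 p [(0, cup), (1, cap)] []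
        (fun x t m => by simpa [cons_iff, nil_iff, St_cup, St_one, St_cap] using eq_comm)
        (by simp [win, wout] at h; omega)
    | zag p =>
      exact key fun a b h _ => loc1 p [(1, cup), (0, cap)] []
        (fun x t m => by simpa [cons_iff, nil_iff, St_cup, St_one, St_cap] using eq_comm)
        (by simp [win, wout] at h; omega)
    | pcup p s =>
      exact key fun a b h _ => loc1 p [(1, cup), (0, cr s)] [(0, cup), (1, cr !s)]
        (fun x t m => by simp [cons_iff, nil_iff, St_cup, St_one, St_cr])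
        (by simp [win, wout] at h; omega)
    | pcap p s =>
      exact key fun a b h _ => loc3 p [(0, cr s), (1, cap)] [(1, cr !s), (0, cap)]
        (fun x y z t m => by simpa [cons_iff, nil_iff, St_cap, St_one, St_cr] using and_comm)
        (by simp [win, wout] at h; omega)
    | endl p e =>
      exact key fun a b _ h => loc1 p [(0, up e), (0, cap)] [(0, dn e)]
        (fun x t m => by simp [cons_iff, nil_iff, St_cap, St_up, St_dn, hA e x]) h.1
    | endr p e =>
      exact key fun a b _ h => loc1 p [(1, up e), (0, cap)] [(0, dn e)]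
        (fun x t m => by simp [cons_iff, nil_iff, St_cap, St_one, St_up, St_dn]) h.1
    | r1cup p s =>
      exact key fun a b _ h => loc0 p [(0, cup), (0, cr s)] [(0, cup)]
        (fun t m => by simp [cons_iff, nil_iff, St_cup, St_cr]) h.1
    | r1cap p s =>
      exact key fun a b _ h => loc2 p [(0, cr s), (0, cap)] [(0, cap)]
        (fun x y t m => by simpa [cons_iff, nil_iff, St_cap, St_cr] using fun _ => eq_comm) h.1
    | r2 p s =>
      exact key fun a b h _ => loc2 p [(0, cr s), (0, cr !s)] []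
        (fun x y t m => by simpa [cons_iff, nil_iff, St_cr] using eq_comm) h.1
    | r3 p s₁ s₂ s₃ _ =>
      exact key fun a b _ h => loc3 p [(0, cr s₁), (1, cr s₂), (0, cr s₃)]
        [(1, cr s₃), (0, cr s₂), (1, cr s₁)]
        (fun x y z t m => by simp [cons_iff, nil_iff, St_one, St_cr]) h.1

end Col1

theorem col1 : StmtCol1 := by
  intro A γ P w w' hA h h0 h1
  suffices H : Col γ P [] w [] ↔ Col γ P [] w' [] from H.1
  induction h with
  | rel x y h => exact Col1.step hA h h0 h1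
  | refl x => rfl
  | symm x y h ih => exact (ih ((FE.countP_eq h _).trans h0) ((FE.countP_eq h _).trans h1)).symm
  | trans x y z h _ ih1 ih2 =>
    exact (ih1 h0 h1).trans
      (ih2 ((FE.countP_eq h _).symm.trans h0) ((FE.countP_eq h _).symm.trans h1))

end Pool.Agent.MP_d5eec5_gt.H77
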